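import Pool.Agent.Run7.h876.HY.Defs

/-!
# Products of members of families of hyperelliptic curves, and the L-function of their `H²`
-/

set_option autoImplicit false

namespace Run7.h876.TP

open NumberField IsDedekindDomain Polynomial
open Run7.h876.MM (nv instFieldKv)
open Run7.h876.HY (frobTrace GoodAt)

/-- The parameters of the families `i`. -/
abbrev Par {I : Type} (J : I → Type) : Type := Σ i, (Fin 2 ⊕ J i)

/-- The pairs `a < b` of factors of a product of `r` curves. -/
def pairs (r : ℕ) : Finset (Fin r × Fin r) := Finset.univ.filter fun p => p.1 < p.2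

/-- The rank of the Néron–Severi group of the generic member of the family of the products of `r` curves,
the curve number `a` being the member of the family `σ a`: the `r` classes of the fibres, and one class
for each pair of equal factors. -/
def picard {I : Type} [DecidableEq I] {r : ℕ} (σ : Fin r → I) : ℕ :=
  r + ((pairs r).filter fun p => σ p.1 = σ p.2).card

section
variable {K : Type} [Field K] [NumberField K] {I : Type} [Fintype I] [DecidableEq I] {J : I → Type}
  [∀ i, Fintype (J i)] (𝓕 : ∀ i, Run7.h876.HY.Family K (J i)) {r : ℕ} (σ : Fin r → I)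

/-- The polynomial `f` of the member `C_i : y² = f(x)` of the family `i`. -/
noncomputable def curve (t : Par J → 𝓞 K) (i : I) : (𝓞 K)[X] := (𝓕 i).member fun p => t ⟨i, p⟩

/-- The trace of the `m`-th power of the Frobenius at `v` on `H²` of `C_{σ(0)} × ⋯ × C_{σ(r-1)}`, by the
Künneth formula: `r` times `Nv^m`, and the products of the traces on `H¹` for the pairs of factors. -/
noncomputable def frobTrace₂ (t : Par J → 𝓞 K) (v : HeightOneSpectrum (𝓞 K)) (m : ℕ) : ℤ :=
  r * (nv v : ℤ) ^ m +
    ∑ p ∈ pairs r, frobTrace (curve 𝓕 t (σ p.1)) v m * frobTrace (curve 𝓕 t (σ p.2)) v m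

/-- All the curves have good reduction at `v`. -/
def Good₂ (t : Par J → 𝓞 K) (v : HeightOneSpectrum (𝓞 K)) : Prop := ∀ a, GoodAt (curve 𝓕 t (σ a)) v

open Classical in
/-- The Euler factor `det(1 - Frob_v Nv^(-s) | H²)⁻¹ = exp(∑ tr(Frob_v^m | H²) Nv^(-ms) / m)` at the
places at which all the curves have good reduction, and `1` otherwise. -/
noncomputable def factor₂ (t : Par J → 𝓞 K) (v : HeightOneSpectrum (𝓞 K)) (s : ℂ) : ℂ :=
  if Good₂ 𝓕 σ t v then
    Complex.exp (∑' m : ℕ, (frobTrace₂ 𝓕 σ t v (m + 1) : ℂ) * ((nv v : ℂ) ^ (-s)) ^ (m + 1) / ((m : ℂ) + 1))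
  else 1

/-- The L-function `L₂` of `C_{σ(0)} × ⋯ × C_{σ(r-1)}`, without the Euler factors at the other places. -/
noncomputable def L₂ (t : Par J → 𝓞 K) (s : ℂ) : ℂ := ∏' v : HeightOneSpectrum (𝓞 K), factor₂ 𝓕 σ t v s

open Classical in
/-- The part `Nv ≤ Z` of the Euler product of `L₂`, a finite product. -/
noncomputable def partialL₂ (Z : ℕ) (t : Par J → 𝓞 K) (s : ℂ) : ℂ :=
  ∏' v : HeightOneSpectrum (𝓞 K), if nv v ≤ Z then factor₂ 𝓕 σ t v s else 1

open Classical in
/-- The trace of the Frobenius at `v` on `H²` if all the curves have good reduction, and `0` otherwise. -/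
noncomputable def trace₂ (t : Par J → 𝓞 K) (v : HeightOneSpectrum (𝓞 K)) : ℂ :=
  if Good₂ 𝓕 σ t v then (frobTrace₂ 𝓕 σ t v 1 : ℂ) else 0

/-- The parameters for which the curves `C_{σ(a)}` are smooth. -/
def smooth₂ : Set (Par J → 𝓞 K) := {t | ∀ a, ((curve 𝓕 t (σ a)).map (algebraMap (𝓞 K) K)).Separable}

end

end Run7.h876.TP
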