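import Pool.Agent.Run7.h876.TP.Defs
import Pool.Agent.Run7.h876.GN.First

/-!
# The local data of products of hyperelliptic curves
-/

set_option autoImplicit false
set_option linter.unusedSectionVars false

namespace Run7.h876.TP

open NumberField IsDedekindDomain Polynomial Finset
open Run7.h876.MM (nv kv two_le_nv nv_pos avg card_kv xv norm_xv instFieldKv instFintypeKv instDecKv
  norm_avg_le avg_sub' avg_hom)
open Run7.h876.EN
open Run7.h876.HY (one_le_nv frobTrace GoodAt fpol av av_le DD DD_nonneg local_moments N0 finite_bad fpol_fam goodAt_iff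
  map_member fpol_monic member_monic good_facts)
open Run7.h876.GN

section
variable {K : Type} [Field K] [NumberField K] {I : Type} [Fintype I] [DecidableEq I] {J : I → Type}
  [∀ i, Fintype (J i)] [∀ i, DecidableEq (J i)] (𝓕 : ∀ i, Run7.h876.HY.Family K (J i)) {r : ℕ} (σ : Fin r → I)

/-! ### mean values over the residues -/

/-- the parameters of the family `i` -/
def pr {k : Type} (i : I) (t : Par J → k) : Fin 2 ⊕ J i → k := fun p => t ⟨i, p⟩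

theorem avg_one {k : Type} [Field k] [Fintype k] (i : I) (f : (Fin 2 ⊕ J i → k) → ℂ) :
    avg Finset.univ (fun t : Par J → k => f (pr i t)) = avg Finset.univ f := by
  classical
  let Ψ : (Par J → k) →+ (Fin 2 ⊕ J i → k) :=
    { toFun := pr i, map_zero' := rfl, map_add' := fun _ _ => rfl }
  refine avg_hom Ψ (fun x => ⟨fun p => if h : p.1 = i then x (h ▸ p.2) else 0, ?_⟩) f
  funext p
  show (if h : i = i then x (h ▸ p) else 0) = x p
  rw [dif_pos rfl]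

theorem avg_two {k : Type} [Field k] [Fintype k] {i j : I} (hij : i ≠ j) (f : (Fin 2 ⊕ J i → k) → ℂ)
    (g : (Fin 2 ⊕ J j → k) → ℂ) :
    avg Finset.univ (fun t : Par J → k => f (pr i t) * g (pr j t)) = avg Finset.univ f * avg Finset.univ g := by
  classical
  let Ψ : (Par J → k) →+ (Fin 2 ⊕ J i → k) × (Fin 2 ⊕ J j → k) :=
    { toFun := fun t => (pr i t, pr j t), map_zero' := rfl, map_add' := fun _ _ => rfl }
  have h := avg_hom Ψ (fun x => ⟨fun p => if h : p.1 = i then x.1 (h ▸ p.2) else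
    if h : p.1 = j then x.2 (h ▸ p.2) else 0, by
      refine Prod.ext ?_ ?_
      · funext p
        show (if h : i = i then x.1 (h ▸ p) else _) = x.1 p
        rw [dif_pos rfl]
      · funext p
        show (if h : j = i then x.1 (h ▸ p) else if h : j = j then x.2 (h ▸ p) else 0) = x.2 p
        rw [dif_neg hij.symm, dif_pos rfl]⟩) (fun x => f x.1 * g x.2)
  have h2 : avg Finset.univ (fun x : (Fin 2 ⊕ J i → k) × (Fin 2 ⊕ J j → k) => f x.1 * g x.2) =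
      avg Finset.univ f * avg Finset.univ g := by
    unfold avg
    rw [Fintype.sum_prod_type, div_mul_div_comm, Finset.sum_mul_sum, Finset.card_univ, Finset.card_univ, Finset.card_univ,
      Fintype.card_prod]
    push_cast
    rfl
  rw [← h2, ← h]
  rfl

/-! ### the local data -/

/-- the bound of the traces -/
noncomputable def Dm : ℝ := ∑ i, DD (𝓕 i).F₀.natDegree

theorem Dm_nonneg : 0 ≤ Dm 𝓕 := Finset.sum_nonneg fun _ _ => DD_nonneg _

theorem DD_le_Dm (i : I) : DD (𝓕 i).F₀.natDegree ≤ Dm 𝓕 :=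
  Finset.single_le_sum (f := fun i => DD (𝓕 i).F₀.natDegree) (fun _ _ => DD_nonneg _) (Finset.mem_univ i)

theorem card_pairs_le (r : ℕ) : ((pairs r).card : ℝ) ≤ (r : ℝ) ^ 2 := by
  have h : (pairs r).card ≤ r ^ 2 := by
    unfold pairs
    refine (Finset.card_filter_le _ _).trans ?_
    rw [Finset.card_univ, Fintype.card_prod, Fintype.card_fin, sq]
  exact_mod_cast h

/-- the trace on `H¹` of the curve `i` -/
noncomputable def Ai (v : HeightOneSpectrum (𝓞 K)) (t : Par J → kv v) (i : I) (m : ℕ) : ℝ :=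
  (trc (fpol (𝓕 i) v (pr i t)) m : ℝ)

/-- all curves are good -/
def GR (v : HeightOneSpectrum (𝓞 K)) (t : Par J → kv v) : Prop :=
  ringChar (kv v) ≠ 2 ∧ ∀ a, (fpol (𝓕 (σ a)) v (pr (σ a) t)).Separable

theorem Ai_le {v : HeightOneSpectrum (𝓞 K)} (h2 : ringChar (kv v) ≠ 2) (t : Par J → kv v) (i : I) (m : ℕ) :
    |Ai 𝓕 v t i m| ≤ Dm 𝓕 * Real.sqrt (nv v) ^ (m + 1) := by
  obtain ⟨h3, h4⟩ := fpol_monic (𝓕 i) v (pr i t)
  have h5 := (𝓕 i).deg_three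
  have h6 := trc_le h2 h3 (by omega) m
  rw [h4, card_kv] at h6
  refine h6.trans (mul_le_mul_of_nonneg_right (DD_le_Dm 𝓕 i) (by positivity))

theorem AiAj_le {v : HeightOneSpectrum (𝓞 K)} (h2 : ringChar (kv v) ≠ 2) (t : Par J → kv v) (i j : I) (m : ℕ) :
    |Ai 𝓕 v t i m * Ai 𝓕 v t j m| ≤ Dm 𝓕 ^ 2 * (nv v : ℝ) ^ (m + 1) := by
  have hD := Dm_nonneg 𝓕
  have hs : Real.sqrt (nv v) ^ (m + 1) * Real.sqrt (nv v) ^ (m + 1) = (nv v : ℝ) ^ (m + 1) := by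
    rw [← mul_pow, Real.mul_self_sqrt (nv_pos v).le]
  rw [abs_mul]
  calc |Ai 𝓕 v t i m| * |Ai 𝓕 v t j m| ≤ (Dm 𝓕 * Real.sqrt (nv v) ^ (m + 1)) * (Dm 𝓕 * Real.sqrt (nv v) ^ (m + 1)) :=
        mul_le_mul (Ai_le 𝓕 h2 t i m) (Ai_le 𝓕 h2 t j m) (abs_nonneg _) (by positivity)
    _ = Dm 𝓕 ^ 2 * (Real.sqrt (nv v) ^ (m + 1) * Real.sqrt (nv v) ^ (m + 1)) := by ring
    _ = _ := by rw [hs]

/-- the sum of the Künneth formula -/
noncomputable def S2 (v : HeightOneSpectrum (𝓞 K)) (t : Par J → kv v) (m : ℕ) : ℝ :=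
  r * (nv v : ℝ) ^ (m + 1) + ∑ p ∈ pairs r, Ai 𝓕 v t (σ p.1) m * Ai 𝓕 v t (σ p.2) m

/-- the bound of the traces on `H²` -/
noncomputable def D2 (r : ℕ) : ℝ := r + (r : ℝ) ^ 2 * Dm 𝓕 ^ 2

theorem D2_nonneg : 0 ≤ D2 𝓕 r := by unfold D2; positivity

theorem S2_le {v : HeightOneSpectrum (𝓞 K)} (h2 : ringChar (kv v) ≠ 2) (t : Par J → kv v) (m : ℕ) :
    |S2 𝓕 σ v t m| ≤ D2 𝓕 r * (nv v : ℝ) ^ (m + 1) := by
  have hn := (nv_pos v).le
  unfold S2 D2
  refine (abs_add_le _ _).trans ?_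
  rw [abs_of_nonneg (by positivity : (0 : ℝ) ≤ r * (nv v : ℝ) ^ (m + 1)), add_mul]
  refine add_le_add_right ?_ _
  refine (Finset.abs_sum_le_sum_abs _ _).trans ((Finset.sum_le_sum fun p _ => AiAj_le 𝓕 h2 t (σ p.1) (σ p.2) m).trans ?_)
  rw [Finset.sum_const, nsmul_eq_mul, mul_assoc ((r : ℝ) ^ 2)]
  exact mul_le_mul_of_nonneg_right (card_pairs_le r) (by positivity)

open Classical in
/-- the local data -/
noncomputable def LD : Loc K (Par J) where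
  h := 1
  D := D2 𝓕 r
  a := fun v t m => if GR 𝓕 σ v t then S2 𝓕 σ v t m else 0
  D_nonneg := D2_nonneg 𝓕
  bound := fun v t m => by
    have hn := (nv_pos v).le
    have := D2_nonneg 𝓕 (r := r)
    rw [Real.rpow_one]
    split_ifs with h
    · exact S2_le 𝓕 σ h.1 t m
    · rw [abs_zero]; positivity

theorem good_iff (v : HeightOneSpectrum (𝓞 K)) (t : Par J → 𝓞 K) (h0 : 0 < r) :
    Good₂ 𝓕 σ t v ↔ GR 𝓕 σ v (rd v t) := by
  unfold Good₂ GR curve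
  have h : ∀ a, GoodAt ((𝓕 (σ a)).member fun p => t ⟨σ a, p⟩) v ↔ ringChar (kv v) ≠ 2 ∧
      (fpol (𝓕 (σ a)) v (pr (σ a) (rd v t))).Separable := fun a => goodAt_iff (𝓕 (σ a)) v _
  simp only [h]
  constructor
  · intro h1
    exact ⟨(h1 ⟨0, h0⟩).1, fun a => (h1 a).2⟩
  · rintro ⟨h1, h2⟩ a
    exact ⟨h1, h2 a⟩

theorem trace_eq (v : HeightOneSpectrum (𝓞 K)) (t : Par J → 𝓞 K) (hg : GR 𝓕 σ v (rd v t)) (m : ℕ) :
    (frobTrace₂ 𝓕 σ t v (m + 1) : ℂ) = ((S2 𝓕 σ v (rd v t) m : ℝ) : ℂ) := by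
  have h : ∀ a, (frobTrace (curve 𝓕 t (σ a)) v (m + 1) : ℝ) = Ai 𝓕 v (rd v t) (σ a) m := by
    intro a
    have h3 : frobTrace (curve 𝓕 t (σ a)) v (m + 1) = trc (fpol (𝓕 (σ a)) v (pr (σ a) (rd v t))) m := by
      unfold frobTrace curve
      have h4 := map_member (𝓕 (σ a)) v (fun p => t ⟨σ a, p⟩)
      have h5 : rd v (fun p => t ⟨σ a, p⟩) = pr (σ a) (rd v t) := rfl
      rw [trc_eq hg.1 (hg.2 a), card_kv, h4, (fpol_monic (𝓕 (σ a)) v _).2, (member_monic (𝓕 (σ a)) _).2, h5]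
    rw [h3]
    rfl
  unfold frobTrace₂ S2
  have e : ((r * (nv v : ℤ) ^ (m + 1) + ∑ p ∈ pairs r, frobTrace (curve 𝓕 t (σ p.1)) v (m + 1) *
      frobTrace (curve 𝓕 t (σ p.2)) v (m + 1) : ℤ) : ℝ) =
      r * (nv v : ℝ) ^ (m + 1) + ∑ p ∈ pairs r, Ai 𝓕 v (rd v t) (σ p.1) m * Ai 𝓕 v (rd v t) (σ p.2) m := by
    push_cast
    congr 1
    refine Finset.sum_congr rfl fun p _ => ?_
    rw [h, h]
  rw [← e]
  push_cast
  rfl

theorem factor_eq (v : HeightOneSpectrum (𝓞 K)) (t : Par J → 𝓞 K) (s : ℂ) (h0 : 0 < r) :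
    factor₂ 𝓕 σ t v s = ef (LD 𝓕 σ) v (rd v t) s := by
  classical
  unfold factor₂ ef
  by_cases h : Good₂ 𝓕 σ t v
  · rw [if_pos h]
    have hg := (good_iff 𝓕 σ v t h0).1 h
    unfold ell
    congr 2
    funext m
    rw [trace_eq 𝓕 σ v t hg m]
    show _ = ((if GR 𝓕 σ v (rd v t) then S2 𝓕 σ v (rd v t) m else 0 : ℝ) : ℂ) * _ / _
    rw [if_pos hg]
    rfl
  · rw [if_neg h]
    have hg : ¬ GR 𝓕 σ v (rd v t) := fun hg => h ((good_iff 𝓕 σ v t h0).2 hg)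
    have e : (fun m => ((LD 𝓕 σ).a v (rd v t) m : ℂ)) = fun _ => 0 := by
      funext m
      show ((if GR 𝓕 σ v (rd v t) then S2 𝓕 σ v (rd v t) m else 0 : ℝ) : ℂ) = 0
      rw [if_neg hg, Complex.ofReal_zero]
    rw [e]
    unfold ell
    simp

theorem trace₂_eq (v : HeightOneSpectrum (𝓞 K)) (t : Par J → 𝓞 K) (h0 : 0 < r) :
    trace₂ 𝓕 σ t v = ((LD 𝓕 σ).a v (rd v t) 0 : ℂ) := by
  classical
  unfold trace₂
  show _ = ((if GR 𝓕 σ v (rd v t) then S2 𝓕 σ v (rd v t) 0 else 0 : ℝ) : ℂ)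
  by_cases h : Good₂ 𝓕 σ t v
  · rw [if_pos h, if_pos ((good_iff 𝓕 σ v t h0).1 h), ← trace_eq 𝓕 σ v t ((good_iff 𝓕 σ v t h0).1 h) 0]
  · rw [if_neg h, if_neg fun hg => h ((good_iff 𝓕 σ v t h0).2 hg), Complex.ofReal_zero]

end

end Run7.h876.TP
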