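import Pool.Agent.Run7.h876.TP.Mom

/-!
# The moments of `L₂` over products of members of families of hyperelliptic curves
-/

set_option autoImplicit false
set_option linter.unusedSectionVars false

namespace Run7.h876.TP

open NumberField IsDedekindDomain Polynomial Finset Filter Topology
open Run7.h876.MM (nv kv two_le_nv nv_pos avg card_kv xv norm_xv instFieldKv instFintypeKv instDecKv
  norm_avg_le avg_sub' avg_hom card_iota_pos SZ mem_SZ)
open Run7.h876.EN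
open Run7.h876.HY (one_le_nv N0 finite_bad member_monic member_update partialZeta)
open Run7.h876.GN

section
variable {K : Type} [Field K] [NumberField K]

theorem fiber_smooth {J : Type} [Fintype J] [DecidableEq J] (𝓕 : Run7.h876.HY.Family K J)
    (t : Fin 2 ⊕ J → 𝓞 K) (B : Finset (𝓞 K)) (hB : ∀ b ∈ B, Function.update t (Sum.inl 1) b ∉ 𝓕.smooth) :
    B.card ≤ 𝓕.F₀.natDegree + 𝓕.r := by
  classical
  set φ : 𝓞 K →+* K := algebraMap (𝓞 K) K with hφ
  have hinj : Function.Injective φ := NumberField.RingOfIntegers.coe_injective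
  set R : Finset K := Finset.univ.image (fun i => φ (𝓕.x i)) with hR
  have hRc : R.card = 𝓕.r := by
    rw [hR, Finset.card_image_of_injective _ (fun a b h => 𝓕.x_inj (hinj h)), Finset.card_univ, Fintype.card_fin]
  have hmR : mR R = (∏ i, (X - C (𝓕.x i))).map φ := by
    unfold mR
    rw [hR, Finset.prod_image fun i _ j _ h => 𝓕.x_inj (hinj h)]
    simp only [Polynomial.map_prod, Polynomial.map_sub, Polynomial.map_X, Polynomial.map_C]
  set V : K[X] := (𝓕.member (Function.update t (Sum.inl 1) 0)).map φ with hV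
  have hm := member_monic 𝓕 (Function.update t (Sum.inl 1) 0)
  have hVm : V.Monic := hm.1.map φ
  have hVd : V.natDegree = 𝓕.F₀.natDegree := by rw [hV, hm.1.natDegree_map, hm.2]
  have hdeg := 𝓕.deg
  have h := nonsep_fiber hVm (R := R) (by rw [hRc, hVd]; exact hdeg) (fun x hx => by
      obtain ⟨i, _, rfl⟩ := Finset.mem_image.1 hx
      have e1 : V.eval (φ (𝓕.x i)) = φ (𝓕.y i) ^ 2 := by
        rw [hV, eval_map, eval₂_at_apply]
        unfold Run7.h876.HY.Family.member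
        rw [eval_add, eval_mul, eval_prod, Finset.prod_eq_zero (Finset.mem_univ i) (by simp), zero_mul, add_zero,
          𝓕.on_curve, map_pow]
      rw [e1]
      refine pow_ne_zero _ ?_
      rw [Ne, map_eq_zero_iff φ hinj]
      exact 𝓕.y_ne i) (by
      rw [hRc, hVd]
      exact_mod_cast (by omega : 𝓕.F₀.natDegree - 𝓕.r ≠ 0)) (B.image φ) (fun b hb => by
      obtain ⟨b', hb', rfl⟩ := Finset.mem_image.1 hb
      have h1 := hB b' hb'
      intro h2
      apply h1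
      show ((𝓕.member (Function.update t (Sum.inl 1) b')).map φ).Separable
      rw [member_update, Polynomial.map_add, Polynomial.map_mul, ← hmR, Polynomial.map_C]
      exact h2)
  rw [Finset.card_image_of_injective _ hinj, hVd, hRc] at h
  exact h

section thin
variable {ι : Type} [Fintype ι] [DecidableEq ι] {J : Type} [Fintype J] [DecidableEq J] (ω : Module.Basis ι ℤ (𝓞 K))

/-- A finite intersection. -/
theorem thin_inter {α : Type} (S : Finset α) (G : α → Set (J → 𝓞 K)) (Cb : α → ℝ) (h : ∀ a ∈ S, Thin ω (G a) (Cb a)) :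
    Thin ω {t | ∀ a ∈ S, t ∈ G a} (∑ a ∈ S, Cb a) := by
  classical
  intro H M hH
  have h1 : ((box ι H).filter fun c => ¬ (tuple ω c ∈ {t : J → 𝓞 K | ∀ a ∈ S, t ∈ G a})) ⊆
      S.biUnion fun a => (box ι H).filter fun c => ¬ (tuple ω c ∈ G a) := by
    intro c hc
    obtain ⟨hc1, hc2⟩ := Finset.mem_filter.1 hc
    change ¬ ∀ a ∈ S, tuple ω c ∈ G a at hc2
    push Not at hc2
    obtain ⟨a, ha, hca⟩ := hc2
    exact Finset.mem_biUnion.2 ⟨a, ha, Finset.mem_filter.2 ⟨hc1, hca⟩⟩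
  have h2 := (Finset.card_le_card h1).trans Finset.card_biUnion_le
  have h3 : (((((box ι H).filter fun c => ¬ (tuple ω c ∈ {t : J → 𝓞 K | ∀ a ∈ S, t ∈ G a})).card : ℕ) : ℝ)) ≤
      ∑ a ∈ S, ((((box ι H).filter fun c => ¬ (tuple ω c ∈ G a)).card : ℕ) : ℝ) := by exact_mod_cast h2
  have h5 : ∀ a ∈ S, ((((box ι H).filter fun c => ¬ (tuple ω c ∈ G a)).card : ℕ) : ℝ) * (2 * M + 1) ≤
      Cb a * (box ι H).card := by
    intro a ha
    refine le_trans (le_of_eq ?_) (h a ha H M hH)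
    congr!
  have h4 : (((((box ι H).filter fun c => ¬ (tuple ω c ∈ {t : J → 𝓞 K | ∀ a ∈ S, t ∈ G a})).card : ℕ) : ℝ)) * (2 * M + 1) ≤
      (∑ a ∈ S, Cb a) * (box ι H).card := by
    calc _ ≤ (∑ a ∈ S, ((((box ι H).filter fun c => ¬ (tuple ω c ∈ G a)).card : ℕ) : ℝ)) * (2 * M + 1) :=
          mul_le_mul_of_nonneg_right h3 (by positivity)
      _ = ∑ a ∈ S, ((((box ι H).filter fun c => ¬ (tuple ω c ∈ G a)).card : ℕ) : ℝ) * (2 * M + 1) := by rw [Finset.sum_mul]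
      _ ≤ ∑ a ∈ S, Cb a * (box ι H).card := Finset.sum_le_sum h5
      _ = (∑ a ∈ S, Cb a) * (box ι H).card := by rw [Finset.sum_mul]
  refine le_trans (le_of_eq ?_) h4
  congr!

end thin

variable {I : Type} [Fintype I] [DecidableEq I] {J : I → Type}
  [∀ i, Fintype (J i)] [∀ i, DecidableEq (J i)] (𝓕 : ∀ i, Run7.h876.HY.Family K (J i)) {r : ℕ} (σ : Fin r → I)
variable {ι : Type} [Fintype ι] [DecidableEq ι] (ω : Module.Basis ι ℤ (𝓞 K))

theorem thin_smooth₂ : Thin ω (smooth₂ 𝓕 σ) (∑ a : Fin r, (((𝓕 (σ a)).F₀.natDegree + (𝓕 (σ a)).r : ℕ) : ℝ)) := by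
  haveI : Nonempty ι := Fintype.card_pos_iff.1 (card_iota_pos ω)
  have h := thin_inter ω (J := Par J) (Finset.univ : Finset (Fin r))
    (fun a => {t | ((curve 𝓕 t (σ a)).map (algebraMap (𝓞 K) K)).Separable})
    (fun a => (((𝓕 (σ a)).F₀.natDegree + (𝓕 (σ a)).r : ℕ) : ℝ)) (fun a _ => by
      refine thin_of_fiber ω _ ⟨σ a, Sum.inl 1⟩ _ fun t B hB => ?_
      refine fiber_smooth (𝓕 (σ a)) (pr (σ a) t) B fun b hb hs => hB b hb ?_
      have e : (fun p => Function.update t ⟨σ a, Sum.inl 1⟩ b ⟨σ a, p⟩) = Function.update (pr (σ a) t) (Sum.inl 1) b := by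
        funext p
        by_cases hp : p = Sum.inl 1
        · subst hp; simp
        · rw [Function.update_of_ne hp, Function.update_of_ne]
          · rfl
          · intro hc
            apply hp
            have := (Sigma.mk.inj_iff.1 hc).2
            exact eq_of_heq this
      show ((curve 𝓕 (Function.update t ⟨σ a, Sum.inl 1⟩ b) (σ a)).map (algebraMap (𝓞 K) K)).Separable
      unfold curve
      rw [e]
      exact hs)
  have e : smooth₂ 𝓕 σ = {t | ∀ a ∈ (Finset.univ : Finset (Fin r)), t ∈ (fun a => {t | ((curve 𝓕 t (σ a)).map (algebraMap (𝓞 K) K)).Separable}) a} := by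
    ext t
    simp [smooth₂]
  rw [e]
  exact h

theorem L₂_eq (h0 : 0 < r) (t : Par J → 𝓞 K) (s : ℂ) : L₂ 𝓕 σ t s = LL (LD 𝓕 σ) t s := by
  unfold L₂ LL
  exact tprod_congr fun v => factor_eq 𝓕 σ v t s h0

theorem partialL₂_eq (h0 : 0 < r) (Z : ℕ) (t : Par J → 𝓞 K) (s : ℂ) :
    partialL₂ 𝓕 σ Z t s = ∏ v ∈ SZ K Z, ef (LD 𝓕 σ) v (rd v t) s := by
  classical
  unfold partialL₂
  rw [tprod_eq_prod (s := SZ K Z) (fun v hv => if_neg fun h => hv (mem_SZ.2 h))]
  exact Finset.prod_congr rfl fun v hv => by rw [if_pos (mem_SZ.1 hv), factor_eq 𝓕 σ v t s h0]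

/-- the exceptional places -/
def BdS : Set (HeightOneSpectrum (𝓞 K)) := {v | ∃ i, N0 (𝓕 i) ∈ v.asIdeal}

theorem BdS_finite : (BdS 𝓕).Finite := by
  have e : BdS 𝓕 = ⋃ i, {v | N0 (𝓕 i) ∈ v.asIdeal} := by
    ext v; simp [BdS]
  rw [e]
  exact Set.finite_iUnion fun i => finite_bad (𝓕 i)

theorem maj (h0 : 0 < r) (k : ℂ) : Maj (LD 𝓕 σ) (fun _ : Unit => 1) (fun _ => 1) (3 / 2) k (fun _ => k * ((picard σ : ℝ) : ℂ)) := by
  have h1 : (LD 𝓕 σ).h = 1 := rfl
  refine maj_first (LD 𝓕 σ) 1 (by rw [h1]; norm_num) k (picard σ : ℝ) (BdS 𝓕) (BdS_finite 𝓕) (C := CC 𝓕 σ) (CC_nonneg 𝓕 σ) (1 / 2)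
    (fun v hv => ?_) (by rw [h1]; norm_num) (by rw [h1]; norm_num)
  have hv' : ∀ i, N0 (𝓕 i) ∉ v.asIdeal := fun i hi => hv ⟨i, hi⟩
  rw [h1]
  exact main_mom 𝓕 σ hv' h0

theorem adm : Adm (LD 𝓕 σ) (fun _ : Unit => 1) (fun _ => 1) (3 / 2) := by
  refine ⟨?_, fun _ => ⟨le_rfl, by norm_num⟩⟩
  show (1 : ℝ) ≤ 3 / 2
  norm_num

/-- **The order of the pole.** -/
theorem central₂ {G : ℂ → ℂ} (hG : DifferentiableOn ℂ G {s | 3 / 2 < s.re})
    (hG2 : ∀ x : ℝ, 3 / 2 < x → ∃ r : ℝ, 0 < r ∧ G x = r) (n : ℤ) :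
    ∃ c : ℝ, 0 < c ∧ Tendsto (fun x : ℝ => ((x : ℂ) - 2) ^ n * (dedekindZeta K (x - 1) ^ n * G x)) (𝓝[>] 2) (𝓝 (c : ℂ)) := by
  obtain ⟨g, hg0, hg⟩ := hG2 2 (by norm_num)
  set R := dedekindZeta_residue K with hR
  have hR0 : 0 < R := dedekindZeta_residue_pos K
  have hRc : (R : ℂ) ≠ 0 := by exact_mod_cast hR0.ne'
  refine ⟨R ^ n * g, by positivity, ?_⟩
  have h1 := tendsto_sub_one_mul_dedekindZeta_nhdsGT K
  have h2 : Tendsto (fun x : ℝ => ((x : ℂ) - 2) * dedekindZeta K (x - 1)) (𝓝[>] 2) (𝓝 ((R : ℝ) : ℂ)) := by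
    have hm : Tendsto (fun x : ℝ => x - 1) (𝓝[>] 2) (𝓝[>] 1) := by
      refine tendsto_nhdsWithin_iff.2 ⟨?_, ?_⟩
      · have : Tendsto (fun x : ℝ => x - 1) (𝓝 2) (𝓝 (2 - 1)) := Continuous.tendsto (by fun_prop) 2
        have e : (2 : ℝ) - 1 = 1 := by norm_num
        rw [e] at this
        exact this.mono_left nhdsWithin_le_nhds
      · filter_upwards [self_mem_nhdsWithin] with x hx
        have : (2 : ℝ) < x := hx
        show (1 : ℝ) < x - 1
        linarith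
    have h3 := h1.comp hm
    refine h3.congr fun x => ?_
    simp only [Function.comp_apply]
    push_cast
    ring
  have h3 : Tendsto (fun x : ℝ => G (x : ℂ)) (𝓝[>] 2) (𝓝 (g : ℂ)) := by
    have h4 : ContinuousAt G ((2 : ℝ) : ℂ) :=
      (hG.differentiableAt ((isOpen_lt continuous_const Complex.continuous_re).mem_nhds (by norm_num))).continuousAt
    have h5 : Tendsto (fun x : ℝ => (x : ℂ)) (𝓝[>] 2) (𝓝 ((2 : ℝ) : ℂ)) :=
      (Complex.continuous_ofReal.tendsto 2).mono_left nhdsWithin_le_nhds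
    have h6 := h4.tendsto.comp h5
    rw [hg] at h6
    exact h6
  have h4 := (h2.zpow₀ n (Or.inl hRc)).mul h3
  have e : (R : ℂ) ^ n * (g : ℂ) = ((R ^ n * g : ℝ) : ℂ) := by push_cast; ring
  rw [e] at h4
  refine h4.congr fun x => ?_
  rw [mul_zpow]
  ring

/-- the mean of the traces -/
noncomputable def Bv (v : HeightOneSpectrum (𝓞 K)) : ℝ :=
  (∑ t, (LD 𝓕 σ).a v t 0) / (Fintype.card (Par J → kv v))

theorem avg_eq_Bv (v : HeightOneSpectrum (𝓞 K)) :
    avg Finset.univ (fun t : Par J → kv v => ((LD 𝓕 σ).a v t 0 : ℂ)) = (Bv 𝓕 σ v : ℂ) := by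
  unfold avg Bv
  rw [Finset.card_univ]
  push_cast
  rfl

/-- **The averaged traces.** -/
theorem mean_trace (h0 : 0 < r) (v : HeightOneSpectrum (𝓞 K)) {ε : ℝ} (hε : 0 < ε) :
    ∃ M : ℕ, ∀ H : Par J → ℕ, (∀ j, M ≤ H j) →
      ‖mean ω H (smooth₂ 𝓕 σ) (fun t => trace₂ 𝓕 σ t v) - (Bv 𝓕 σ v : ℂ)‖ ≤ ε := by
  classical
  set b : ℝ := D2 𝓕 r * ((nv v : ℝ) ^ (1 : ℝ)) ^ (0 + 1) + 1 with hb
  have hb0 : 0 ≤ b := by
    have := D2_nonneg 𝓕 (r := r)
    have := (nv_pos v).le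
    positivity
  obtain ⟨M, hM⟩ := meanA (P := Unit) ω (thin_smooth₂ 𝓕 σ ω) (fun v' => if v' = v then b else 0)
    (summable_of_hasFiniteSupport ((Set.finite_singleton v).subset fun v' hv' => by
      by_contra hc
      exact hv' (if_neg hc)))
    (fun v' _ t => if v' = v then ((LD 𝓕 σ).a v' t 0 : ℂ) else 1) (fun v' _ t => by
      by_cases h : v' = v
      · subst h
        rw [if_pos rfl, if_pos rfl]
        refine (norm_sub_le _ _).trans ?_
        rw [norm_one, Complex.norm_real]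
        exact add_le_add_left ((LD 𝓕 σ).bound v' t 0) _
      · rw [if_neg h, if_neg h, sub_self, norm_zero]) hε
  refine ⟨M, fun H hH => ?_⟩
  have h := hM H hH ()
  have e1 : (fun t : Par J → 𝓞 K => ∏' v' : HeightOneSpectrum (𝓞 K), if v' = v then ((LD 𝓕 σ).a v' (rd v' t) 0 : ℂ) else 1) =
      fun t => trace₂ 𝓕 σ t v := by
    funext t
    rw [tprod_eq_mulSingle v (fun v' hv' => if_neg hv'), if_pos rfl, trace₂_eq 𝓕 σ v t h0]
  have e2 : ∏' v' : HeightOneSpectrum (𝓞 K), avg Finset.univ (fun t : Par J → kv v' => if v' = v then ((LD 𝓕 σ).a v' t 0 : ℂ) else 1) =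
      (Bv 𝓕 σ v : ℂ) := by
    rw [tprod_eq_mulSingle v (fun v' hv' => by
      simp only [if_neg hv']
      unfold avg
      rw [Finset.sum_const, nsmul_eq_mul, mul_one]
      refine div_self ?_
      have : 0 < (Finset.univ : Finset (Par J → kv v')).card := Finset.card_pos.2 Finset.univ_nonempty
      exact_mod_cast this.ne')]
    simp only [if_true]
    exact avg_eq_Bv 𝓕 σ v
  rw [e1, e2] at h
  exact h

theorem Bv_summable (h0 : 0 < r) {x : ℝ} (hx : 3 / 2 < x) :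
    Summable fun v : HeightOneSpectrum (𝓞 K) => |Bv 𝓕 σ v - picard σ * nv v| * (Real.log (nv v) * (nv v : ℝ) ^ (-x)) := by
  classical
  set η : ℝ := (x - 3 / 2) / 2 with hη
  have hη0 : 0 < η := by rw [hη]; linarith
  have hs := ((Pool.Agent.H921R2.TatePole.nm_summable (K := K) (x := x - 1 / 2 - η) (by rw [hη]; linarith)).mul_left
    (CC 𝓕 σ / η))
  have hs2 : Summable fun v : HeightOneSpectrum (𝓞 K) =>
      if v ∈ BdS 𝓕 then |Bv 𝓕 σ v - picard σ * nv v| * (Real.log (nv v) * (nv v : ℝ) ^ (-x)) else 0 :=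
    summable_of_hasFiniteSupport ((BdS_finite 𝓕).subset fun v hv => by
      by_contra hc
      exact hv (if_neg hc))
  refine Summable.of_nonneg_of_le (fun v => ?_) (fun v => ?_) (hs.add hs2)
  · have h1 : 0 ≤ Real.log (nv v) := Real.log_nonneg (one_le_nv v)
    have := (nv_pos v).le
    positivity
  · have hnv := nv_pos v
    have h1 : 0 ≤ Real.log (nv v) := Real.log_nonneg (one_le_nv v)
    have hC := CC_nonneg 𝓕 σ
    by_cases hv : v ∈ BdS 𝓕
    · rw [if_pos hv]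
      have h2 : 0 ≤ CC 𝓕 σ / η * (nv v : ℝ) ^ (-(x - 1 / 2 - η)) := by positivity
      exact le_add_of_nonneg_left h2
    · rw [if_neg hv, add_zero]
      have hv' : ∀ i, N0 (𝓕 i) ∉ v.asIdeal := fun i hi => hv ⟨i, hi⟩
      have h2 := main_mom 𝓕 σ hv' h0
      rw [avg_eq_Bv, ← Complex.ofReal_sub, Complex.norm_real, Real.norm_eq_abs, pow_one] at h2
      have h3 : Real.log (nv v) ≤ (nv v : ℝ) ^ η / η := Real.log_le_rpow_div hnv.le hη0
      calc |Bv 𝓕 σ v - picard σ * nv v| * (Real.log (nv v) * (nv v : ℝ) ^ (-x))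
          ≤ (CC 𝓕 σ * (nv v : ℝ) ^ ((1 : ℝ) - 1 / 2)) * ((nv v : ℝ) ^ η / η * (nv v : ℝ) ^ (-x)) := by gcongr
        _ = CC 𝓕 σ / η * ((nv v : ℝ) ^ ((1 : ℝ) - 1 / 2) * (nv v : ℝ) ^ η * (nv v : ℝ) ^ (-x)) := by ring
        _ = CC 𝓕 σ / η * (nv v : ℝ) ^ (-(x - 1 / 2 - η)) := by
            rw [← Real.rpow_add hnv, ← Real.rpow_add hnv]
            congr 2
            ring

end

end Run7.h876.TP
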