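import Pool.Agent.Run7.h876.TP.Loc

/-!
# The mean of the trace on `H²`
-/

set_option autoImplicit false
set_option linter.unusedSectionVars false

namespace Run7.h876.TP

open NumberField IsDedekindDomain Polynomial Finset
open Run7.h876.MM (nv kv two_le_nv nv_pos avg card_kv xv norm_xv instFieldKv instFintypeKv instDecKv
  norm_avg_le avg_sub' avg_hom)
open Run7.h876.EN
open Run7.h876.HY (one_le_nv frobTrace GoodAt fpol av av_le DD DD_nonneg local_moments N0 finite_bad fpol_fam goodAt_iff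
  map_member fpol_monic member_monic good_facts fiber_bound)
open Run7.h876.GN

theorem norm_avg_mono {α : Type*} (S : Finset α) (f : α → ℂ) (g : α → ℝ) (h : ∀ t ∈ S, ‖f t‖ ≤ g t) :
    ‖avg S f‖ ≤ ‖avg S (fun t => (g t : ℂ))‖ := by
  unfold avg
  rw [norm_div, norm_div]
  refine div_le_div_of_nonneg_right ?_ (norm_nonneg _)
  rw [← Complex.ofReal_sum, Complex.norm_real, Real.norm_of_nonneg (Finset.sum_nonneg fun t ht => (norm_nonneg _).trans (h t ht))]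
  exact (norm_sum_le _ _).trans (Finset.sum_le_sum h)

theorem avg_sum' {α β : Type*} (S : Finset α) (B : Finset β) (f : β → α → ℂ) :
    avg S (fun t => ∑ b ∈ B, f b t) = ∑ b ∈ B, avg S (f b) := by
  unfold avg
  rw [Finset.sum_comm, Finset.sum_div]

theorem avg_add' {α : Type*} (S : Finset α) (f g : α → ℂ) : avg S (fun c => f c + g c) = avg S f + avg S g := by
  unfold avg
  rw [Finset.sum_add_distrib, add_div]

section
variable {K : Type} [Field K] [NumberField K]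

section one
variable {J : Type} [Fintype J] [DecidableEq J] (𝓕 : Run7.h876.HY.Family K J)

open Classical in
/-- The proportion of the singular members. -/
theorem bad_prop {v : HeightOneSpectrum (𝓞 K)} (hv : N0 𝓕 ∉ v.asIdeal) :
    ‖avg Finset.univ (fun t : Fin 2 ⊕ J → kv v => (((if (fpol 𝓕 v t).Separable then 0 else 1) : ℝ) : ℂ))‖ ≤
      2 * 𝓕.F₀.natDegree / nv v := by
  obtain ⟨h1, h2, h3, h4⟩ := good_facts 𝓕 hv
  have hq := nv_pos v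
  have h := fiber_bound (J := J) (k := kv v) (fun t => (if (fpol 𝓕 v t).Separable then (0 : ℝ) else 1)) 0
    (2 * 𝓕.F₀.natDegree / nv v) (by positivity) (fun w => ?_)
  · simpa using h
  · obtain ⟨U, R, hU1, hU2, hR1, hR2, hfam⟩ := fpol_fam 𝓕 hv w
    have hdr := 𝓕.deg
    have h5 := card_nonsep hU1 (R := R) (by rw [hR1, hU2]; exact hdr) (fun x hx h0 => by
      have := hR2 x hx
      rw [h0, MulChar.map_zero] at this
      exact zero_ne_one this) (by rw [hR1, hU2]; exact h2)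
    rw [hU2, hR1, card_kv] at h5
    have h6 : ∑ p : kv v × kv v, (if (fpol 𝓕 v (Sum.elim ![p.1, p.2] w)).Separable then (0 : ℝ) else 1) =
        ((#{t : kv v × kv v | ¬ (fam U R t).Separable} : ℕ) : ℝ) := by
      rw [Finset.card_filter]
      push_cast
      refine Finset.sum_congr rfl fun p _ => ?_
      rw [hfam]
      by_cases h : (fam U R p).Separable <;> simp [h]
    rw [h6, add_zero, card_kv, abs_of_nonneg (by positivity)]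
    have h7 : ((#{t : kv v × kv v | ¬ (fam U R t).Separable} : ℕ) : ℝ) ≤ (2 * 𝓕.F₀.natDegree) * nv v := by
      have h8 : ((#{t : kv v × kv v | ¬ (fam U R t).Separable} : ℕ) : ℝ) ≤ ((𝓕.F₀.natDegree + 𝓕.r) * nv v : ℕ) := by
        exact_mod_cast h5
      refine h8.trans ?_
      push_cast
      have h9 : (𝓕.r : ℝ) ≤ 𝓕.F₀.natDegree := by exact_mod_cast (by omega : 𝓕.r ≤ 𝓕.F₀.natDegree)
      gcongr
      linarith
    rw [div_le_div_iff₀ (by positivity) hq]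
    calc _ ≤ (2 * 𝓕.F₀.natDegree) * (nv v : ℝ) * nv v := by gcongr
      _ = _ := by ring

/-- the constant of the moments -/
noncomputable def Cm : ℝ := C1 𝓕.F₀.natDegree * (1 + 2 * 𝓕.rk) + 3 * (𝓕.rk : ℝ) ^ 2 + 𝓕.rk

theorem Cm_nonneg : 0 ≤ Cm 𝓕 := by
  have := C1_nonneg 𝓕.F₀.natDegree
  unfold Cm
  positivity

theorem mom1 {v : HeightOneSpectrum (𝓞 K)} (hv : N0 𝓕 ∉ v.asIdeal) :
    ‖avg Finset.univ (fun t : Fin 2 ⊕ J → kv v => ((trc (fpol 𝓕 v t) 0 : ℝ) : ℂ))‖ ≤ Cm 𝓕 := by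
  obtain ⟨h1, _⟩ := good_facts 𝓕 hv
  have h := (local_moments 𝓕 hv).1
  have hC := C1_nonneg 𝓕.F₀.natDegree
  have e : (fun t : Fin 2 ⊕ J → kv v => av 𝓕 v t 0) = fun t => ((trc (fpol 𝓕 v t) 0 : ℝ) : ℂ) := by
    funext t
    unfold av
    rw [if_pos h1]
    simp
  rw [e] at h
  have hs : 1 ≤ Real.sqrt (nv v) := Real.one_le_sqrt.2 (one_le_nv v)
  have h2 : C1 𝓕.F₀.natDegree / Real.sqrt (nv v) ≤ C1 𝓕.F₀.natDegree := div_le_self hC hs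
  have h3 : ‖((𝓕.rk : ℝ) : ℂ)‖ = 𝓕.rk := by rw [Complex.norm_real, Real.norm_of_nonneg (by positivity)]
  have h4 : ‖avg Finset.univ (fun t : Fin 2 ⊕ J → kv v => ((trc (fpol 𝓕 v t) 0 : ℝ) : ℂ))‖ ≤
      C1 𝓕.F₀.natDegree + 𝓕.rk := by
    have h5 := norm_sub_le (avg Finset.univ (fun t : Fin 2 ⊕ J → kv v => ((trc (fpol 𝓕 v t) 0 : ℝ) : ℂ)) + ((𝓕.rk : ℝ) : ℂ))
      ((𝓕.rk : ℝ) : ℂ)
    rw [add_sub_cancel_right, h3] at h5
    linarith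
  refine h4.trans ?_
  unfold Cm
  nlinarith [(Nat.cast_nonneg 𝓕.rk : (0 : ℝ) ≤ 𝓕.rk)]

theorem mom2 {v : HeightOneSpectrum (𝓞 K)} (hv : N0 𝓕 ∉ v.asIdeal) :
    ‖avg Finset.univ (fun t : Fin 2 ⊕ J → kv v => ((trc (fpol 𝓕 v t) 0 : ℝ) : ℂ) * ((trc (fpol 𝓕 v t) 0 : ℝ) : ℂ)) -
      ((nv v : ℝ) : ℂ)‖ ≤ Cm 𝓕 * Real.sqrt (nv v) := by
  obtain ⟨h1, _⟩ := good_facts 𝓕 hv
  obtain ⟨m1, m2, _⟩ := local_moments 𝓕 hv
  have hC := C1_nonneg 𝓕.F₀.natDegree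
  have e : (fun t : Fin 2 ⊕ J → kv v => av 𝓕 v t 0) = fun t => ((trc (fpol 𝓕 v t) 0 : ℝ) : ℂ) := by
    funext t
    unfold av
    rw [if_pos h1]
    simp
  have e' : ∀ t : Fin 2 ⊕ J → kv v, av 𝓕 v t 0 = ((trc (fpol 𝓕 v t) 0 : ℝ) : ℂ) := fun t => congrFun e t
  rw [e] at m1
  simp only [e'] at m2
  set a : (Fin 2 ⊕ J → kv v) → ℂ := fun t => ((trc (fpol 𝓕 v t) 0 : ℝ) : ℂ) with ha
  set ρ : ℂ := ((𝓕.rk : ℝ) : ℂ) with hρ
  have hρn : ‖ρ‖ = 𝓕.rk := by rw [hρ, Complex.norm_real, Real.norm_of_nonneg (by positivity)]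
  have hs : 1 ≤ Real.sqrt (nv v) := Real.one_le_sqrt.2 (one_le_nv v)
  have key : avg Finset.univ (fun t => a t * a t) - ((nv v : ℝ) : ℂ) =
      (avg Finset.univ (fun t => (a t + ρ) ^ 2) - ((nv v : ℝ) : ℂ)) - 2 * ρ * (avg Finset.univ a + ρ) + ρ ^ 2 := by
    have h5 : (fun t => (a t + ρ) ^ 2) = fun t => (a t * a t + 2 * ρ * a t) + ρ ^ 2 := by
      funext t; ring
    rw [h5, avg_add_const, avg_add', avg_mul_const]
    ring
  have h2 : C1 𝓕.F₀.natDegree / Real.sqrt (nv v) ≤ C1 𝓕.F₀.natDegree := div_le_self hC hs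
  show ‖avg Finset.univ (fun t => a t * a t) - ((nv v : ℝ) : ℂ)‖ ≤ _
  rw [key]
  refine (norm_add_le _ _).trans ((add_le_add ((norm_sub_le _ _).trans (add_le_add m2 le_rfl)) le_rfl).trans ?_)
  rw [norm_mul, norm_mul, norm_pow, hρn]
  have h2' : ‖(2 : ℂ)‖ = 2 := by simp
  rw [h2']
  have hr0 : (0 : ℝ) ≤ 𝓕.rk := by positivity
  have h6 : 2 * (𝓕.rk : ℝ) * ‖avg Finset.univ a + ρ‖ ≤ 2 * (𝓕.rk : ℝ) * C1 𝓕.F₀.natDegree :=
    mul_le_mul_of_nonneg_left (m1.trans h2) (by positivity)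
  have h7 : 2 * (𝓕.rk : ℝ) * C1 𝓕.F₀.natDegree ≤ 2 * (𝓕.rk : ℝ) * C1 𝓕.F₀.natDegree * Real.sqrt (nv v) :=
    le_mul_of_one_le_right (by positivity) hs
  have h8 : (𝓕.rk : ℝ) ^ 2 ≤ (𝓕.rk : ℝ) ^ 2 * Real.sqrt (nv v) := le_mul_of_one_le_right (by positivity) hs
  have h9 : 0 ≤ (𝓕.rk : ℝ) * Real.sqrt (nv v) := by positivity
  have h10 : 0 ≤ (𝓕.rk : ℝ) ^ 2 * Real.sqrt (nv v) := by positivity
  unfold Cm
  nlinarith

end one

variable {I : Type} [Fintype I] [DecidableEq I] {J : I → Type}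
  [∀ i, Fintype (J i)] [∀ i, DecidableEq (J i)] (𝓕 : ∀ i, Run7.h876.HY.Family K (J i)) {r : ℕ} (σ : Fin r → I)

/-- all constants -/
noncomputable def CA : ℝ := ∑ i, Cm (𝓕 i)

theorem Cm_le_CA (i : I) : Cm (𝓕 i) ≤ CA 𝓕 :=
  Finset.single_le_sum (f := fun i => Cm (𝓕 i)) (fun _ _ => Cm_nonneg _) (Finset.mem_univ i)

theorem CA_nonneg : 0 ≤ CA 𝓕 := Finset.sum_nonneg fun _ _ => Cm_nonneg _

/-- the constant of the theorem -/
noncomputable def CC : ℝ := D2 𝓕 r * ∑ a : Fin r, 2 * ((𝓕 (σ a)).F₀.natDegree : ℝ) + (r : ℝ) ^ 2 * (CA 𝓕 + CA 𝓕 ^ 2)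

theorem CC_nonneg : 0 ≤ CC 𝓕 σ := by
  have := D2_nonneg 𝓕 (r := r)
  have := CA_nonneg 𝓕
  unfold CC
  positivity

theorem pair_mom {v : HeightOneSpectrum (𝓞 K)} (hv : ∀ i, N0 (𝓕 i) ∉ v.asIdeal) (i j : I) :
    ‖avg Finset.univ (fun t : Par J → kv v => ((Ai 𝓕 v t i 0 * Ai 𝓕 v t j 0 : ℝ) : ℂ)) -
      (((if i = j then (nv v : ℝ) else 0) : ℝ) : ℂ)‖ ≤ (CA 𝓕 + CA 𝓕 ^ 2) * Real.sqrt (nv v) := by
  have hs : 1 ≤ Real.sqrt (nv v) := Real.one_le_sqrt.2 (one_le_nv v)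
  have hCA := CA_nonneg 𝓕
  by_cases hij : i = j
  · subst hij
    rw [if_pos rfl]
    have h1 := avg_one (k := kv v) (J := J) i (fun t => ((trc (fpol (𝓕 i) v t) 0 : ℝ) : ℂ) * ((trc (fpol (𝓕 i) v t) 0 : ℝ) : ℂ))
    have e : (fun t : Par J → kv v => ((Ai 𝓕 v t i 0 * Ai 𝓕 v t i 0 : ℝ) : ℂ)) = fun t =>
        ((trc (fpol (𝓕 i) v (pr i t)) 0 : ℝ) : ℂ) * ((trc (fpol (𝓕 i) v (pr i t)) 0 : ℝ) : ℂ) := by
      funext t
      unfold Ai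
      push_cast
      rfl
    rw [e, h1]
    refine (mom2 (𝓕 i) (hv i)).trans ?_
    gcongr
    have := Cm_le_CA 𝓕 i
    nlinarith
  · rw [if_neg hij, Complex.ofReal_zero, sub_zero]
    have h1 := avg_two (k := kv v) (J := J) hij (fun t => ((trc (fpol (𝓕 i) v t) 0 : ℝ) : ℂ))
      (fun t => ((trc (fpol (𝓕 j) v t) 0 : ℝ) : ℂ))
    have e : (fun t : Par J → kv v => ((Ai 𝓕 v t i 0 * Ai 𝓕 v t j 0 : ℝ) : ℂ)) = fun t =>
        ((trc (fpol (𝓕 i) v (pr i t)) 0 : ℝ) : ℂ) * ((trc (fpol (𝓕 j) v (pr j t)) 0 : ℝ) : ℂ) := by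
      funext t
      unfold Ai
      push_cast
      rfl
    rw [e, h1, norm_mul]
    have h2 := (mom1 (𝓕 i) (hv i)).trans (Cm_le_CA 𝓕 i)
    have h3 := (mom1 (𝓕 j) (hv j)).trans (Cm_le_CA 𝓕 j)
    calc _ ≤ CA 𝓕 * CA 𝓕 := mul_le_mul h2 h3 (norm_nonneg _) hCA
      _ ≤ (CA 𝓕 + CA 𝓕 ^ 2) * 1 := by nlinarith
      _ ≤ _ := by gcongr

/-- **The mean of the trace on `H²`.** -/
theorem main_mom {v : HeightOneSpectrum (𝓞 K)} (hv : ∀ i, N0 (𝓕 i) ∉ v.asIdeal) (h0 : 0 < r) :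
    ‖avg Finset.univ (fun t : Par J → kv v => ((LD 𝓕 σ).a v t 0 : ℂ)) - (((picard σ : ℝ) * (nv v : ℝ) ^ 1 : ℝ) : ℂ)‖ ≤
      CC 𝓕 σ * (nv v : ℝ) ^ ((1 : ℝ) - 1 / 2) := by
  classical
  have hq := nv_pos v
  have hs : 1 ≤ Real.sqrt (nv v) := Real.one_le_sqrt.2 (one_le_nv v)
  have h2 : ringChar (kv v) ≠ 2 := (good_facts (𝓕 (σ ⟨0, h0⟩)) (hv _)).1
  have hsq : (nv v : ℝ) ^ ((1 : ℝ) - 1 / 2) = Real.sqrt (nv v) := by
    rw [Real.sqrt_eq_rpow]; norm_num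
  rw [hsq]
  -- the bad members
  have e1 : ∀ t : Par J → kv v, ((LD 𝓕 σ).a v t 0 : ℂ) = ((S2 𝓕 σ v t 0 : ℝ) : ℂ) -
      ((S2 𝓕 σ v t 0 * (if GR 𝓕 σ v t then 0 else 1) : ℝ) : ℂ) := by
    intro t
    show ((if GR 𝓕 σ v t then S2 𝓕 σ v t 0 else 0 : ℝ) : ℂ) = _
    split_ifs <;> simp
  have e2 : avg Finset.univ (fun t : Par J → kv v => ((LD 𝓕 σ).a v t 0 : ℂ)) =
      avg Finset.univ (fun t : Par J → kv v => ((S2 𝓕 σ v t 0 : ℝ) : ℂ)) -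
      avg Finset.univ (fun t : Par J → kv v => ((S2 𝓕 σ v t 0 * (if GR 𝓕 σ v t then 0 else 1) : ℝ) : ℂ)) := by
    rw [avg_sub']
    congr 1
    funext t
    exact e1 t
  have b1 : ‖avg Finset.univ (fun t : Par J → kv v => ((S2 𝓕 σ v t 0 * (if GR 𝓕 σ v t then 0 else 1) : ℝ) : ℂ))‖ ≤
      D2 𝓕 r * ∑ a : Fin r, 2 * ((𝓕 (σ a)).F₀.natDegree : ℝ) := by
    have g1 := norm_avg_mono (Finset.univ : Finset (Par J → kv v))
      (fun t => ((S2 𝓕 σ v t 0 * (if GR 𝓕 σ v t then 0 else 1) : ℝ) : ℂ))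
      (fun t => (D2 𝓕 r * (nv v : ℝ)) * ∑ a : Fin r, (if (fpol (𝓕 (σ a)) v (pr (σ a) t)).Separable then (0 : ℝ) else 1))
      (fun t _ => by
        rw [Complex.norm_real, Real.norm_eq_abs, abs_mul]
        have g2 := S2_le 𝓕 σ h2 t 0
        rw [zero_add, pow_one] at g2
        refine mul_le_mul g2 ?_ (abs_nonneg _) (by have := D2_nonneg 𝓕 (r := r); positivity)
        split_ifs with hg
        · rw [abs_zero]
          exact Finset.sum_nonneg fun a _ => by split_ifs <;> norm_num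
        · rw [abs_one]
          have hg' : ∃ a, ¬ (fpol (𝓕 (σ a)) v (pr (σ a) t)).Separable := by
            by_contra hc
            push Not at hc
            exact hg ⟨h2, hc⟩
          obtain ⟨a, ha⟩ := hg'
          have := Finset.single_le_sum (f := fun a : Fin r => (if (fpol (𝓕 (σ a)) v (pr (σ a) t)).Separable then (0 : ℝ) else 1))
            (fun a _ => by split_ifs <;> norm_num) (Finset.mem_univ a)
          simpa [ha] using this)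
    refine g1.trans ?_
    have g3 : (fun t : Par J → kv v => (((D2 𝓕 r * (nv v : ℝ)) * ∑ a : Fin r, (if (fpol (𝓕 (σ a)) v (pr (σ a) t)).Separable then (0 : ℝ) else 1) : ℝ) : ℂ)) =
        fun t => ((D2 𝓕 r * (nv v : ℝ) : ℝ) : ℂ) * ∑ a : Fin r, (((if (fpol (𝓕 (σ a)) v (pr (σ a) t)).Separable then (0 : ℝ) else 1) : ℝ) : ℂ) := by
      funext t
      rw [Complex.ofReal_mul, Complex.ofReal_sum]
    rw [g3, avg_mul_const, avg_sum', norm_mul, Complex.norm_real, Real.norm_of_nonneg (by have := D2_nonneg 𝓕 (r := r); positivity)]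
    have g4 : ‖∑ a : Fin r, avg Finset.univ (fun t : Par J → kv v => (((if (fpol (𝓕 (σ a)) v (pr (σ a) t)).Separable then (0 : ℝ) else 1) : ℝ) : ℂ))‖ ≤
        ∑ a : Fin r, 2 * ((𝓕 (σ a)).F₀.natDegree : ℝ) / nv v := by
      refine (norm_sum_le _ _).trans (Finset.sum_le_sum fun a _ => ?_)
      have g5 := avg_one (k := kv v) (J := J) (σ a) (fun t => (((if (fpol (𝓕 (σ a)) v t).Separable then (0 : ℝ) else 1) : ℝ) : ℂ))
      rw [g5]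
      exact bad_prop (𝓕 (σ a)) (hv _)
    calc _ ≤ D2 𝓕 r * (nv v : ℝ) * ∑ a : Fin r, 2 * ((𝓕 (σ a)).F₀.natDegree : ℝ) / nv v :=
          mul_le_mul_of_nonneg_left g4 (by have := D2_nonneg 𝓕 (r := r); positivity)
      _ = _ := by rw [← Finset.sum_div]; field_simp
  -- the main term
  have e3 : avg Finset.univ (fun t : Par J → kv v => ((S2 𝓕 σ v t 0 : ℝ) : ℂ)) - (((picard σ : ℝ) * (nv v : ℝ) ^ 1 : ℝ) : ℂ) =
      ∑ p ∈ pairs r, (avg Finset.univ (fun t : Par J → kv v => ((Ai 𝓕 v t (σ p.1) 0 * Ai 𝓕 v t (σ p.2) 0 : ℝ) : ℂ)) -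
        (((if σ p.1 = σ p.2 then (nv v : ℝ) else 0) : ℝ) : ℂ)) := by
    have g1 : (fun t : Par J → kv v => ((S2 𝓕 σ v t 0 : ℝ) : ℂ)) = fun t =>
        (∑ p ∈ pairs r, ((Ai 𝓕 v t (σ p.1) 0 * Ai 𝓕 v t (σ p.2) 0 : ℝ) : ℂ)) + ((r * (nv v : ℝ) : ℝ) : ℂ) := by
      funext t
      unfold S2
      rw [zero_add, pow_one, Complex.ofReal_add, Complex.ofReal_sum, add_comm]
    rw [g1, avg_add_const, avg_sum', Finset.sum_sub_distrib]
    have g2 : ∑ p ∈ pairs r, (((if σ p.1 = σ p.2 then (nv v : ℝ) else 0) : ℝ) : ℂ) =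
        ((((pairs r).filter fun p => σ p.1 = σ p.2).card * (nv v : ℝ) : ℝ) : ℂ) := by
      rw [← Complex.ofReal_sum, ← Finset.sum_filter, Finset.sum_const, nsmul_eq_mul]
    rw [g2]
    unfold picard
    push_cast
    ring
  have b2 : ‖∑ p ∈ pairs r, (avg Finset.univ (fun t : Par J → kv v => ((Ai 𝓕 v t (σ p.1) 0 * Ai 𝓕 v t (σ p.2) 0 : ℝ) : ℂ)) -
        (((if σ p.1 = σ p.2 then (nv v : ℝ) else 0) : ℝ) : ℂ))‖ ≤ (r : ℝ) ^ 2 * ((CA 𝓕 + CA 𝓕 ^ 2) * Real.sqrt (nv v)) := by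
    refine (norm_sum_le _ _).trans ((Finset.sum_le_sum fun p _ => pair_mom 𝓕 hv (σ p.1) (σ p.2)).trans ?_)
    rw [Finset.sum_const, nsmul_eq_mul]
    have := CA_nonneg 𝓕
    exact mul_le_mul_of_nonneg_right (card_pairs_le r) (by positivity)
  have e4 : avg Finset.univ (fun t : Par J → kv v => ((LD 𝓕 σ).a v t 0 : ℂ)) - (((picard σ : ℝ) * (nv v : ℝ) ^ 1 : ℝ) : ℂ) =
      (avg Finset.univ (fun t : Par J → kv v => ((S2 𝓕 σ v t 0 : ℝ) : ℂ)) - (((picard σ : ℝ) * (nv v : ℝ) ^ 1 : ℝ) : ℂ)) -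
      avg Finset.univ (fun t : Par J → kv v => ((S2 𝓕 σ v t 0 * (if GR 𝓕 σ v t then 0 else 1) : ℝ) : ℂ)) := by
    rw [e2]; ring
  rw [e4, e3]
  refine (norm_sub_le _ _).trans ((add_le_add b2 b1).trans ?_)
  unfold CC
  have hD := D2_nonneg 𝓕 (r := r)
  have h9 : 0 ≤ D2 𝓕 r * ∑ a : Fin r, 2 * ((𝓕 (σ a)).F₀.natDegree : ℝ) := by positivity
  have h10 := le_mul_of_one_le_right h9 hs
  have h11 : (r : ℝ) ^ 2 * ((CA 𝓕 + CA 𝓕 ^ 2) * Real.sqrt (nv v)) = (r : ℝ) ^ 2 * (CA 𝓕 + CA 𝓕 ^ 2) * Real.sqrt (nv v) := by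
    ring
  have h12 : (D2 𝓕 r * ∑ a : Fin r, 2 * ((𝓕 (σ a)).F₀.natDegree : ℝ) + (r : ℝ) ^ 2 * (CA 𝓕 + CA 𝓕 ^ 2)) * Real.sqrt (nv v) =
      D2 𝓕 r * ∑ a : Fin r, 2 * ((𝓕 (σ a)).F₀.natDegree : ℝ) * Real.sqrt (nv v) +
        (r : ℝ) ^ 2 * (CA 𝓕 + CA 𝓕 ^ 2) * Real.sqrt (nv v) := by
    rw [← Finset.sum_mul]; ring
  rw [h12, h11]
  have h13 : D2 𝓕 r * ∑ a : Fin r, 2 * ((𝓕 (σ a)).F₀.natDegree : ℝ) * Real.sqrt (nv v) =
      (D2 𝓕 r * ∑ a : Fin r, 2 * ((𝓕 (σ a)).F₀.natDegree : ℝ)) * Real.sqrt (nv v) := by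
    rw [← Finset.sum_mul]; ring
  rw [h13]
  linarith

end

end Run7.h876.TP
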